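import Pool.Agent.Helper31.BC.Stmts

/-! # Module SIZ: the number of vertices -/

set_option autoImplicit false

namespace Pool.Agent.Helper31.BC

open Pool.Agent.Helper52.Grid

theorem siz_hR (r t : ℕ) (h : hR r t = 0) : t ≤ 1 := by
  unfold hR at h
  split at h <;> omega

theorem siz_h (S : List Sub) (M x y : ℕ) (h : hC S M x y = 0) :
    x < 7 + 4 * S.length ∧ y < 10 + 12 * M := by
  unfold hC at h
  split_ifs at h with h1 h2 h3 h4
  · unfold hT at h
    split_ifs at h <;> omega
  · omega
  · omega
  · have := siz_hR _ _ h
    omega

theorem siz_vCell (k : Kind) (r j : ℕ) (h : vCell k r j = 0) : r < 5 := by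
  unfold vCell at h
  split at h <;> omega

theorem siz_vR (i r t : ℕ) (h : vR i r t = 0) : t ≤ 2 ∧ (i % 2 = 0 → r < 5) := by
  unfold vR at h
  split at h
  · split at h <;> omega
  · split at h <;> omega
  · split_ifs at h <;> omega
  · omega

theorem siz_vL (M i r x : ℕ) (h : vL M i r x = 0) (hi : i = 2 * M) : r < 5 := by
  unfold vL at h
  split at h
  · split_ifs at h <;> omega
  · split_ifs at h <;> omega
  · split at h <;> omega
  · split at h <;> omega
  · omega

theorem siz_v (S : List Sub) (M x y : ℕ) (h : vC S M x y = 0) :
    x ≤ 7 + 4 * S.length ∧ y + 1 < 10 + 12 * M := by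
  unfold vC at h
  split_ifs at h with h1 h2 h3 h4
  · unfold vT at h
    split_ifs at h <;> omega
  · have h5 := siz_vL M ((y - 4) / 6) ((y - 4) % 6) x h
    omega
  · have h5 := siz_vCell _ _ _ h
    omega
  · have h5 := siz_vR _ _ _ h
    omega

theorem siz_top (S : List Sub) (M x : ℕ) (h1 : 1 ≤ x) (h2 : x ≤ 4 * S.length) :
    Vert (hC S M) (vC S M) (x, 3) := by
  unfold Vert
  simp only
  by_cases h5 : x < 5
  · left
    unfold hC hT
    rw [if_pos (by norm_num), if_pos h5, if_pos ⟨rfl, h1⟩]
  · have h6 : x < 5 + 4 * S.length := by omega
    by_cases h7 : (x - 5) % 4 = 1 ∧ dock (sg S ((x - 5) / 4)) = true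
    · right; left
      unfold hC hT
      rw [if_pos (by norm_num)]
      by_cases h8 : x - 1 < 5
      · rw [if_pos h8, if_pos ⟨rfl, by omega⟩]
      · rw [if_neg h8, if_pos (by omega), if_pos rfl, if_neg]
        intro h9
        have := h9.1
        have := h7.1
        omega
    · left
      unfold hC hT
      rw [if_pos (by norm_num), if_neg h5, if_pos h6, if_pos rfl, if_neg h7]

theorem siz_left (S : List Sub) (M y : ℕ) (h1 : 4 ≤ y) (h2 : y < 4 + 12 * M) :
    Vert (hC S M) (vC S M) (1, y) := by
  unfold Vert
  simp only
  right; right; left
  unfold vC vL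
  rw [if_neg (by omega), if_pos (by omega), if_pos (by norm_num)]
  simp only
  rw [if_pos]
  left
  omega

/-- the module statement -/
theorem st_SIZ : ST_SIZ := by
  intro M S L hL hmem
  have hcard : L.length = L.toFinset.card := (List.toFinset_card_of_nodup hL).symm
  constructor
  · have hsub : L.toFinset ⊆ Finset.range (8 + 4 * S.length) ×ˢ Finset.range (10 + 12 * M) := by
      intro a ha
      rw [List.mem_toFinset, hmem] at ha
      rw [Finset.mem_product, Finset.mem_range, Finset.mem_range]
      rcases ha with h | h | h | h
      · have := siz_h S M _ _ h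
        omega
      · have := siz_h S M _ _ h
        omega
      · have := siz_v S M _ _ h
        omega
      · have := siz_v S M _ _ h
        omega
    have h := Finset.card_le_card hsub
    rw [Finset.card_product, Finset.card_range, Finset.card_range] at h
    rw [hcard]
    exact h
  · have h1 : 4 * S.length ≤ L.length := by
      have hsub : (Finset.range (4 * S.length)).image (fun x => ((x + 1, 3) : Pt)) ⊆ L.toFinset := by
        intro a ha
        rw [Finset.mem_image] at ha
        obtain ⟨x, hx, rfl⟩ := ha
        rw [Finset.mem_range] at hx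
        rw [List.mem_toFinset, hmem]
        exact siz_top S M (x + 1) (by omega) (by omega)
      have h := Finset.card_le_card hsub
      rw [Finset.card_image_of_injective, Finset.card_range] at h
      · rw [hcard]; exact h
      · intro x y hxy
        have h3 := congrArg Prod.fst hxy
        simp only at h3
        omega
    have h2 : 12 * M ≤ L.length := by
      have hsub : (Finset.range (12 * M)).image (fun y => ((1, y + 4) : Pt)) ⊆ L.toFinset := by
        intro a ha
        rw [Finset.mem_image] at ha
        obtain ⟨y, hy, rfl⟩ := ha
        rw [Finset.mem_range] at hy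
        rw [List.mem_toFinset, hmem]
        exact siz_left S M (y + 4) (by omega) (by omega)
      have h := Finset.card_le_card hsub
      rw [Finset.card_image_of_injective, Finset.card_range] at h
      · rw [hcard]; exact h
      · intro x y hxy
        have h3 := congrArg Prod.snd hxy
        simp only at h3
        omega
    omega

end Pool.Agent.Helper31.BC
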